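import Mathlib
import Pool.Agent.V1166.WI.Sel2
import Pool.Agent.V1166.WI.Any
import Pool.Agent.TH841.PT.Fam3

/-!
# The mean values of `4 ^ rank` over all curves with full 2-torsion in windows of ANY size

Let `v n ≥ 1` be any sequence, for instance `2 ^ n` or `2 ^ 2 ^ n`. For almost every vector `α` of the
plane, all `d ≠ 0`, all `ε > 0` and all large `n`, for ALL `1 ≤ H ≤ v n` the mean value of
`(2 ^ rank * #Ш[2 ^ k] ^ (1 / k)) ^ 2` over the curves `y² = x (x - d a) (x - d b)` with the pairs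
`(a, b)` of integers in the square with centre `v n * α` and side `2 H` is at most
`n ^ (1 + ε) * (1 + log (v n)) ^ 2`.
-/

set_option autoImplicit false

namespace Pool.Agent.Results.MP_6073f3_nt.CurvesInAllWindows

open MeasureTheory Filter Finset

open Pool.Agent.V1166.WI (AvgP)

open Pool.Agent.TH841.SH.D (ShaTor)

/-- the curve `y² = x (x - a) (x - b)` -/
def E (a b : ℤ) : WeierstrassCurve ℚ := ⟨0, -((a : ℚ) + b), 0, (a : ℚ) * b, 0⟩

/-- the rank of the Mordell-Weil group -/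
noncomputable def rk (W : WeierstrassCurve ℚ) : ℕ := Pool.Agent.TH841.SH.D.rk W

/-- the weights of a centre -/
noncomputable def wt (t s : ℤ × ℤ) : ℝ :=
  1 / (1 + |(t.1 : ℝ) - s.1|) * (1 / (1 + |(t.2 : ℝ) - s.2|))

lemma wt_nonneg (t s : ℤ × ℤ) : 0 ≤ wt t s := by
  unfold wt
  positivity

lemma sum_wt (N : ℕ) (t : ℤ × ℤ) (ht : t ∈ Icc (-(N : ℤ)) N ×ˢ Icc (-(N : ℤ)) N) :
    ∑ s ∈ Icc (-(N : ℤ)) N ×ˢ Icc (-(N : ℤ)) N, wt t s ≤ (2 * (1 + Real.log (2 * N + 1))) ^ 2 := by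
  obtain ⟨h1, h2⟩ := mem_product.1 ht
  have h3 := Pool.Agent.V1166.WI.sum_inv N t.1 h1
  have h4 := Pool.Agent.V1166.WI.sum_inv N t.2 h2
  unfold wt
  rw [sum_product]
  simp only
  rw [← sum_mul_sum, pow_two]
  exact mul_le_mul h3 h4 (sum_nonneg fun _ _ => by positivity)
    ((sum_nonneg fun _ _ => by positivity).trans h3)

/-- the windows of any size in the plane -/
theorem planeWindows {P : ℤ × ℤ → Prop} {w : ℤ × ℤ → ℝ} (hw : ∀ t, P t → 0 ≤ w t) (h : AvgP P w)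
    {v : ℕ → ℝ} (hv1 : ∀ n, 1 ≤ v n) (R i : ℕ) :
    ∀ᵐ α : ℝ × ℝ, |α.1| ≤ R → |α.2| ≤ R → ∀ᶠ n : ℕ in atTop, ∀ H : ℝ, 1 ≤ H → H ≤ v n →
      ∀ S : Finset (ℤ × ℤ), (∀ t ∈ S, P t ∧ |(t.1 : ℝ) - α.1 * v n| ≤ H ∧
        |(t.2 : ℝ) - α.2 * v n| ≤ H) →
        ∑ t ∈ S, w t ≤ H ^ 2 * (((n : ℝ) + 1) ^ (1 + 1 / ((i : ℝ) + 1)) *
          (1 + Real.log (v n)) ^ 2) := by
  classical
  obtain ⟨K, hK⟩ := h
  set e : ℝ := 1 + 1 / ((i : ℝ) + 1) with he
  set u : ℤ × ℤ → ℝ := fun t => if P t then w t else 0 with hu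
  have hu0 : ∀ t, 0 ≤ u t := by
    intro t
    rw [hu]
    dsimp only
    split_ifs with hP
    · exact hw t hP
    · exact le_rfl
  set Bx : ℕ → Finset (ℤ × ℤ) := fun N => Icc (-(N : ℤ)) N ×ˢ Icc (-(N : ℤ)) N with hBx
  have htot : ∀ N : ℕ, 1 ≤ N → ∑ t ∈ Bx N, u t ≤ |K| * (N : ℝ) ^ 2 := by
    intro N hN
    have h1 := hK ((Bx N).filter P) N hN (fun t ht => by
      obtain ⟨g1, g2⟩ := mem_filter.1 ht
      obtain ⟨g3, g4⟩ := mem_product.1 g1
      exact ⟨abs_le.2 (mem_Icc.1 g3), abs_le.2 (mem_Icc.1 g4), g2⟩)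
    rw [hu, ← sum_filter]
    exact h1.trans (mul_le_mul_of_nonneg_right (le_abs_self K) (by positivity))
  set G : ℕ → ℤ × ℤ → ℝ := fun N s => ∑ t ∈ Bx N, u t * wt t s with hG
  have hG0 : ∀ N s, 0 ≤ G N s := fun N s =>
    sum_nonneg fun t _ => mul_nonneg (hu0 t) (wt_nonneg t s)
  set N : ℕ → ℕ := fun n => ⌈((R : ℝ) + 3) * v n⌉₊ with hNdef
  have hR : (0 : ℝ) ≤ R := Nat.cast_nonneg R
  have hNle : ∀ n, ((R : ℝ) + 3) * v n ≤ N n ∧ (N n : ℝ) ≤ ((R : ℝ) + 4) * v n ∧ 1 ≤ N n := by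
    intro n
    have h1 := hv1 n
    have h2 : ((R : ℝ) + 3) * v n ≤ N n := Nat.le_ceil _
    have h3 : (N n : ℝ) < ((R : ℝ) + 3) * v n + 1 := Nat.ceil_lt_add_one (by positivity)
    refine ⟨h2, by linarith, ?_⟩
    have h4 : (0 : ℝ) < N n := lt_of_lt_of_le (by positivity) h2
    exact_mod_cast h4
  set c₀ : ℝ := 1 + Real.log (3 * ((R : ℝ) + 4)) with hc₀
  have hc0 : 0 < c₀ := by
    have : 0 ≤ Real.log (3 * ((R : ℝ) + 4)) := Real.log_nonneg (by linarith)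
    rw [hc₀]
    linarith
  have hLv : ∀ n, 0 ≤ Real.log (v n) := fun n => Real.log_nonneg (hv1 n)
  have hsum : ∀ n, ∑ s ∈ Bx (N n), G (N n) s ≤
      |K| * ((R : ℝ) + 4) ^ 2 * (2 * c₀) ^ 2 * (v n ^ 2 * (1 + Real.log (v n)) ^ 2) := by
    intro n
    obtain ⟨g1, g2, g3⟩ := hNle n
    have hv0 : 0 < v n := by linarith [hv1 n]
    have hN1 : (1 : ℝ) ≤ N n := by exact_mod_cast g3
    have hl1 := hLv n
    have h1 : ∑ s ∈ Bx (N n), G (N n) s ≤
        ∑ t ∈ Bx (N n), u t * (2 * (1 + Real.log (2 * N n + 1))) ^ 2 := by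
      rw [hG, sum_comm]
      refine sum_le_sum fun t ht => ?_
      rw [← mul_sum]
      exact mul_le_mul_of_nonneg_left (sum_wt (N n) t ht) (hu0 t)
    have h2 : 1 + Real.log (2 * N n + 1) ≤ c₀ * (1 + Real.log (v n)) := by
      have h3 : Real.log (2 * N n + 1) ≤ Real.log (3 * ((R : ℝ) + 4) * v n) := by
        refine Real.log_le_log (by positivity) ?_
        calc 2 * (N n : ℝ) + 1 ≤ 3 * N n := by linarith
          _ ≤ 3 * (((R : ℝ) + 4) * v n) := by linarith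
          _ = _ := by ring
      rw [Real.log_mul (by positivity) (by positivity)] at h3
      have h4 : 0 ≤ Real.log (3 * ((R : ℝ) + 4)) * Real.log (v n) :=
        mul_nonneg (Real.log_nonneg (by linarith)) (hLv n)
      rw [hc₀]
      nlinarith
    have h5 : 0 ≤ 1 + Real.log (2 * (N n : ℝ) + 1) := by
      have := Real.log_nonneg (show (1 : ℝ) ≤ 2 * (N n : ℝ) + 1 by linarith)
      linarith
    have h0 : (0 : ℝ) ≤ ∑ t ∈ Bx (N n), u t := sum_nonneg fun t _ => hu0 t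
    rw [← sum_mul] at h1
    calc ∑ s ∈ Bx (N n), G (N n) s
        ≤ (∑ t ∈ Bx (N n), u t) * (2 * (1 + Real.log (2 * N n + 1))) ^ 2 := h1
      _ ≤ (∑ t ∈ Bx (N n), u t) * (2 * (c₀ * (1 + Real.log (v n)))) ^ 2 :=
          mul_le_mul_of_nonneg_left (pow_le_pow_left₀ (by positivity) (by linarith) 2) h0
      _ ≤ (|K| * (N n : ℝ) ^ 2) * (2 * (c₀ * (1 + Real.log (v n)))) ^ 2 :=
          mul_le_mul_of_nonneg_right (htot (N n) g3) (by positivity)
      _ ≤ (|K| * (((R : ℝ) + 4) * v n) ^ 2) * (2 * (c₀ * (1 + Real.log (v n)))) ^ 2 :=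
          mul_le_mul_of_nonneg_right (mul_le_mul_of_nonneg_left
            (pow_le_pow_left₀ (by positivity) g2 2) (abs_nonneg _)) (by positivity)
      _ = _ := by ring
  set y : ℕ → ℝ := fun n => ((n : ℝ) + 1) ^ e * (1 + Real.log (v n)) ^ 2 with hy
  have hy0 : ∀ n, 0 < y n := by
    intro n
    have := hLv n
    rw [hy]
    positivity
  set B : ℕ → Finset (ℤ × ℤ) := fun n => (Bx (N n)).filter
    (fun s => (4 / 25 : ℝ) * y n < G (N n) s) with hB
  set K' : ℝ := 25 / 4 * (|K| * ((R : ℝ) + 4) ^ 2 * (2 * c₀) ^ 2) with hK'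
  have hBcard : ∀ n, ((B n).card : ℝ) ≤ K' * (v n ^ 2 * (((n : ℝ) + 1) ^ e)⁻¹) := by
    intro n
    have hv0 : 0 < v n := by linarith [hv1 n]
    have hl1 := hLv n
    have h1 : ((B n).card : ℝ) * ((4 / 25 : ℝ) * y n) ≤ ∑ s ∈ Bx (N n), G (N n) s := by
      rw [← nsmul_eq_mul]
      refine (card_nsmul_le_sum (B n) (G (N n)) _ fun t ht => (mem_filter.1 ht).2.le).trans ?_
      exact sum_le_sum_of_subset_of_nonneg (filter_subset _ _) fun t _ _ => hG0 _ t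
    have h2 := h1.trans (hsum n)
    have hq : (0 : ℝ) < ((n : ℝ) + 1) ^ e := by positivity
    have hq2 : (0 : ℝ) < (1 + Real.log (v n)) ^ 2 := by positivity
    have h3 : (((B n).card : ℝ) * ((n : ℝ) + 1) ^ e) * (1 + Real.log (v n)) ^ 2 ≤
        (K' * v n ^ 2) * (1 + Real.log (v n)) ^ 2 := by
      have h4 : ((B n).card : ℝ) * ((4 / 25 : ℝ) * (((n : ℝ) + 1) ^ e * (1 + Real.log (v n)) ^ 2)) ≤
          |K| * ((R : ℝ) + 4) ^ 2 * (2 * c₀) ^ 2 * (v n ^ 2 * (1 + Real.log (v n)) ^ 2) := h2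
      rw [hK']
      linarith
    have h4 := le_of_mul_le_mul_right h3 hq2
    calc ((B n).card : ℝ) = (((B n).card : ℝ) * ((n : ℝ) + 1) ^ e) * (((n : ℝ) + 1) ^ e)⁻¹ := by
          field_simp
      _ ≤ (K' * v n ^ 2) * (((n : ℝ) + 1) ^ e)⁻¹ := mul_le_mul_of_nonneg_right h4 (by positivity)
      _ = _ := by ring
  have hK'0 : 0 ≤ K' := by positivity
  have hbc : ∀ᵐ α : ℝ × ℝ, ∀ᶠ n : ℕ in atTop, α ∉ ⋃ s ∈ B n,
      (Metric.closedBall ((s.1 : ℝ) / v n) (1 / v n) ×ˢ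
        Metric.closedBall ((s.2 : ℝ) / v n) (1 / v n)) := by
    have hs0 : Summable fun n : ℕ => 4 * K' * (((n : ℝ) + 1) ^ e)⁻¹ := by
      have h1 := (Real.summable_nat_rpow_inv.2 (show (1 : ℝ) < e by
        have : (0 : ℝ) < 1 / ((i : ℝ) + 1) := by positivity
        rw [he]
        linarith)).comp_injective (add_left_injective 1)
      refine (h1.mul_left (4 * K')).congr fun n => ?_
      simp [Function.comp]
    refine ae_eventually_notMem (ne_top_of_le_ne_top hs0.tsum_ofReal_ne_top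
      (ENNReal.tsum_le_tsum fun n => ?_))
    have hv0 : 0 < v n := by linarith [hv1 n]
    calc volume (⋃ s ∈ B n, (Metric.closedBall ((s.1 : ℝ) / v n) (1 / v n) ×ˢ
          Metric.closedBall ((s.2 : ℝ) / v n) (1 / v n)))
        ≤ ∑ s ∈ B n, volume (Metric.closedBall ((s.1 : ℝ) / v n) (1 / v n) ×ˢ
          Metric.closedBall ((s.2 : ℝ) / v n) (1 / v n)) := measure_biUnion_finset_le _ _
      _ = ∑ s ∈ B n, ENNReal.ofReal ((2 * (1 / v n)) ^ 2) := by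
          refine sum_congr rfl fun s _ => ?_
          rw [Measure.volume_eq_prod, Measure.prod_prod, Real.volume_closedBall,
            Real.volume_closedBall, ← ENNReal.ofReal_mul (by positivity), pow_two]
      _ = ENNReal.ofReal (((B n).card : ℝ) * (2 * (1 / v n)) ^ 2) := by
          rw [sum_const, nsmul_eq_mul, ENNReal.ofReal_mul (Nat.cast_nonneg _),
            ENNReal.ofReal_natCast]
      _ ≤ _ := by
          refine ENNReal.ofReal_le_ofReal ?_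
          calc ((B n).card : ℝ) * (2 * (1 / v n)) ^ 2
              ≤ (K' * (v n ^ 2 * (((n : ℝ) + 1) ^ e)⁻¹)) * (2 * (1 / v n)) ^ 2 :=
                mul_le_mul_of_nonneg_right (hBcard n) (by positivity)
            _ = _ := by
                field_simp
                ring
  filter_upwards [hbc] with α hα ha1 ha2
  filter_upwards [hα] with n hn H hH1 hHv S hS
  have hv0 : 0 < v n := by linarith [hv1 n]
  obtain ⟨g1, g2, g3⟩ := hNle n
  set s : ℤ × ℤ := (round (α.1 * v n), round (α.2 * v n)) with hs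
  have hs1 : |α.1 * v n - s.1| ≤ 1 / 2 := abs_sub_round _
  have hs2 : |α.2 * v n - s.2| ≤ 1 / 2 := abs_sub_round _
  have hav : ∀ a : ℝ, |a| ≤ R → |a * v n| ≤ R * v n := by
    intro a ha
    rw [abs_mul, abs_of_pos hv0]
    exact mul_le_mul_of_nonneg_right ha hv0.le
  have hin : ∀ (a : ℝ) (D : ℤ), |a| ≤ R → |(D : ℝ) - a * v n| ≤ v n + 1 →
      D ∈ Icc (-(N n : ℤ)) (N n) := by
    intro a D ha hD
    obtain ⟨a1, a2⟩ := abs_le.1 hD
    obtain ⟨a3, a4⟩ := abs_le.1 (hav a ha)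
    have hvn := hv1 n
    rw [mem_Icc]
    constructor
    · have : -(N n : ℝ) ≤ D := by linarith
      exact_mod_cast this
    · have : (D : ℝ) ≤ N n := by linarith
      exact_mod_cast this
  have hball : ∀ (a : ℝ) (D : ℤ), |a * v n - D| ≤ 1 / 2 →
      a ∈ Metric.closedBall ((D : ℝ) / v n) (1 / v n) := by
    intro a D hD
    rw [Metric.mem_closedBall, Real.dist_eq, show a - (D : ℝ) / v n = (a * v n - D) / v n by
      field_simp, abs_div, abs_of_pos hv0]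
    exact div_le_div_of_nonneg_right (by linarith) hv0.le
  have hsB : s ∉ B n := by
    intro hcon
    exact hn (Set.mem_iUnion₂.2 ⟨s, hcon, Set.mem_prod.2 ⟨hball _ _ hs1, hball _ _ hs2⟩⟩)
  have hsI : s ∈ Bx (N n) := by
    refine mem_product.2 ⟨hin α.1 _ ha1 ?_, hin α.2 _ ha2 ?_⟩
    · rw [abs_sub_comm]
      linarith [hv1 n]
    · rw [abs_sub_comm]
      linarith [hv1 n]
  have hGs : G (N n) s ≤ (4 / 25 : ℝ) * y n := by
    by_contra hcon
    exact hsB (mem_filter.2 ⟨hsI, not_le.1 hcon⟩)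
  have hone : ∀ (a : ℝ) (D c : ℤ), |(D : ℝ) - a * v n| ≤ H → |a * v n - c| ≤ 1 / 2 →
      1 ≤ (5 / 2 * H) * (1 / (1 + |(D : ℝ) - c|)) := by
    intro a D c h1 h2
    have h3 : |(D : ℝ) - c| ≤ H + 1 / 2 := by
      calc |(D : ℝ) - c| = |((D : ℝ) - a * v n) + (a * v n - c)| := by
            congr 1
            ring
        _ ≤ |(D : ℝ) - a * v n| + |a * v n - c| := abs_add_le _ _
        _ ≤ H + 1 / 2 := add_le_add h1 h2
    have h4 : 0 < 1 + |(D : ℝ) - c| := by positivity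
    rw [mul_one_div, le_div_iff₀ h4, one_mul]
    linarith
  have hwin : ∀ t ∈ S, w t ≤ (5 / 2 * H) ^ 2 * (u t * wt t s) := by
    intro t ht
    obtain ⟨hP, h1, h2⟩ := hS t ht
    have hux : u t = w t := by
      rw [hu]
      exact if_pos hP
    have h3 := hone α.1 t.1 s.1 h1 hs1
    have h4 := hone α.2 t.2 s.2 h2 hs2
    have h5 : 1 ≤ ((5 / 2 * H) * (1 / (1 + |(t.1 : ℝ) - s.1|))) *
        ((5 / 2 * H) * (1 / (1 + |(t.2 : ℝ) - s.2|))) := by
      calc (1 : ℝ) = 1 * 1 := by ring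
        _ ≤ _ := mul_le_mul h3 h4 zero_le_one (zero_le_one.trans h3)
    calc w t = u t * 1 := by rw [mul_one, hux]
      _ ≤ u t * (((5 / 2 * H) * (1 / (1 + |(t.1 : ℝ) - s.1|))) *
          ((5 / 2 * H) * (1 / (1 + |(t.2 : ℝ) - s.2|)))) := mul_le_mul_of_nonneg_left h5 (hu0 t)
      _ = _ := by
          unfold wt
          ring
  calc ∑ t ∈ S, w t ≤ ∑ t ∈ S, (5 / 2 * H) ^ 2 * (u t * wt t s) := sum_le_sum hwin
    _ = (5 / 2 * H) ^ 2 * ∑ t ∈ S, u t * wt t s := by rw [mul_sum]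
    _ ≤ (5 / 2 * H) ^ 2 * G (N n) s := by
        refine mul_le_mul_of_nonneg_left ?_ (by positivity)
        refine sum_le_sum_of_subset_of_nonneg (fun t ht => mem_product.2
          ⟨hin α.1 _ ha1 ?_, hin α.2 _ ha2 ?_⟩) fun t _ _ => mul_nonneg (hu0 t) (wt_nonneg t s)
        · linarith [(hS t ht).2.1]
        · linarith [(hS t ht).2.2]
    _ ≤ (5 / 2 * H) ^ 2 * ((4 / 25 : ℝ) * y n) := mul_le_mul_of_nonneg_left hGs (by positivity)
    _ = _ := by
        rw [hy]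
        ring

/-- **Theorem.** Let `v n ≥ 1` be a sequence of real numbers. For almost all the vectors `α` of the
plane, all `d ≠ 0`, all `ε > 0` and all large `n`, for ALL `1 ≤ H ≤ v n` and every finite set `S` of
pairs `(a, b)` of integers, `a b (a - b) ≠ 0`, in the square with centre `v n * α` and side `2 H`, and
all `k ≥ 1`: the groups `Ш[2 ^ k]` of the curves `y² = x (x - d a) (x - d b)` are finite, and the sum
of the `(2 ^ rank * #Ш[2 ^ k] ^ (1 / k)) ^ 2` over `S` is at most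
`H ^ 2 * (n ^ (1 + ε) * (1 + log (v n)) ^ 2)`. -/
theorem result (v : ℕ → ℝ) (hv : ∀ n, 1 ≤ v n) : ∀ᵐ α : ℝ × ℝ, ∀ d : ℤ, d ≠ 0 →
    ∀ ε : ℝ, 0 < ε → ∀ᶠ n : ℕ in atTop, ∀ H : ℝ, 1 ≤ H → H ≤ v n → ∀ S : Finset (ℤ × ℤ),
      (∀ t ∈ S, (t.1 ≠ 0 ∧ t.2 ≠ 0 ∧ t.1 ≠ t.2) ∧ |(t.1 : ℝ) - α.1 * v n| ≤ H ∧
        |(t.2 : ℝ) - α.2 * v n| ≤ H) → ∀ k : ℕ, 1 ≤ k →
        (∀ t ∈ S, Finite (ShaTor (E (d * t.1) (d * t.2)) (2 ^ k))) ∧
        ∑ t ∈ S, ((2 : ℝ) ^ rk (E (d * t.1) (d * t.2)) *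
          (Nat.card (ShaTor (E (d * t.1) (d * t.2)) (2 ^ k)) : ℝ) ^ ((1 : ℝ) / k)) ^ 2 ≤
            H ^ 2 * ((n : ℝ) ^ (1 + ε) * (1 + Real.log (v n)) ^ 2) := by
  classical
  rw [ae_all_iff]; intro d
  by_cases hd : d ≠ 0
  swap
  · exact Eventually.of_forall fun α h => absurd h hd
  have key := fun R i : ℕ => planeWindows (fun t _ => by positivity)
    (Pool.Agent.V1166.WI.avg_pairs d hd) hv R i
  filter_upwards [ae_all_iff.2 fun R => ae_all_iff.2 fun i => key R i] with α hα _ ε hε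
  obtain ⟨R, hR⟩ := exists_nat_ge (max |α.1| |α.2|)
  obtain ⟨i, hi⟩ := exists_nat_one_div_lt (show (0 : ℝ) < ε / 2 by positivity)
  have hlim : ∀ᶠ n : ℕ in atTop, (2 : ℝ) ^ (1 + ε / 2) ≤ (n : ℝ) ^ (ε / 2) :=
    ((tendsto_rpow_atTop (show 0 < ε / 2 by positivity)).comp
      tendsto_natCast_atTop_atTop).eventually_ge_atTop _
  filter_upwards [hα R i ((le_max_left _ _).trans hR) ((le_max_right _ _).trans hR), hlim,
    eventually_ge_atTop 1] with n hn hl hn1 H hH1 hHv S hS k hk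
  have hn1' : (1 : ℝ) ≤ n := by exact_mod_cast hn1
  have hb : ∀ t ∈ S, Pool.Agent.TH841.SH.Bd (E (d * t.1) (d * t.2))
      ((Pool.Agent.W307.SE.Sel (d * t.1) (d * t.2)).ncard : ℝ) := fun t ht =>
    Pool.Agent.TH841.PT.bd_EQ (mul_ne_zero hd (hS t ht).1.1) (mul_ne_zero hd (hS t ht).1.2.1)
      (fun h => (hS t ht).1.2.2 (mul_left_cancel₀ hd h))
  refine ⟨fun t ht => (hb t ht).fin k, ?_⟩
  refine (sum_le_sum fun t ht => pow_le_pow_left₀ (Pool.Agent.TH841.SH.wt_nonneg _ _)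
    ((hb t ht).wt_le hk) 2).trans ((hn H hH1 hHv S hS).trans ?_)
  refine mul_le_mul_of_nonneg_left (mul_le_mul_of_nonneg_right ?_ (by positivity)) (by positivity)
  calc ((n : ℝ) + 1) ^ (1 + 1 / ((i : ℝ) + 1)) ≤ (2 * (n : ℝ)) ^ (1 + 1 / ((i : ℝ) + 1)) :=
        Real.rpow_le_rpow (by positivity) (by linarith) (by positivity)
    _ ≤ (2 * (n : ℝ)) ^ (1 + ε / 2) :=
        Real.rpow_le_rpow_of_exponent_le (by linarith) (by linarith)
    _ = 2 ^ (1 + ε / 2) * (n : ℝ) ^ (1 + ε / 2) := Real.mul_rpow (by norm_num) (by positivity)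
    _ ≤ (n : ℝ) ^ (ε / 2) * (n : ℝ) ^ (1 + ε / 2) := mul_le_mul_of_nonneg_right hl (by positivity)
    _ = (n : ℝ) ^ (1 + ε) := by
        rw [← Real.rpow_add (by linarith)]
        congr 1
        ring

end Pool.Agent.Results.MP_6073f3_nt.CurvesInAllWindows
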